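import Pool.Agent.helper69.LN.ESpec

/-!
# Row ln:EGB: from a clique of a block of `x` to a clique of the gadget graph of `K` forests
-/

set_option autoImplicit false

namespace Pool.Agent.LN

open Finset Pool.Agent.helper38.Neg Pool.Agent.helper55.NT

/-- the chosen label of a class -/
def EGB_lab {M r K : ℕ} {E : Finset (Fin M × Fin M)} (P : Pcs M r K E) {l w : ℕ} (b : Tv P → Bool)
    (c : Fin l → Fin r) (pc : Pr l → Pr r) (q : Fin K) : Wk P l w → Wt P l w
  | Sum.inl a => Sum.inl (a, b a)
  | Sum.inr (Sum.inl i) => Sum.inr (Sum.inl (i, c i))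
  | Sum.inr (Sum.inr (Sum.inl ij)) => Sum.inr (Sum.inr (Sum.inl (ij, pc ij, q)))
  | Sum.inr (Sum.inr (Sum.inr i)) => Sum.inr (Sum.inr (Sum.inr i))

theorem EGB_cls {M r K : ℕ} {E : Finset (Fin M × Fin M)} (P : Pcs M r K E) {l w : ℕ} (b : Tv P → Bool)
    (c : Fin l → Fin r) (pc : Pr l → Pr r) (q : Fin K) (κ : Wk P l w) :
    wcls (EGB_lab P b c pc q κ) = κ := by
  rcases κ with a | i | ij | i <;> rfl

theorem EGB_ncf {M r K : ℕ} {E : Finset (Fin M × Fin M)} (P : Pcs M r K E) {l w : ℕ} (b : Tv P → Bool)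
    (c : Fin l → Fin r) (pc : Pr l → Pr r) (q : Fin K)
    (hb : ∀ (a : Tv P) (ij : Pr l), (P.leaf q (pc ij) = a.1 ∨ P.cen q (pc ij) = a.1) → b a = true)
    (h1 : ∀ ij, (pc ij).1.1 = c ij.1.1) (h2 : ∀ ij, (pc ij).1.2 = c ij.1.2) (κ κ' : Wk P l w) :
    ¬ wcf (EGB_lab P b c pc q κ) (EGB_lab P b c pc q κ') := by
  intro h
  rcases κ with a | i | ij | i
  · rcases hba : b a with _ | _
    · have e1 : EGB_lab (l := l) (w := w) P b c pc q (Sum.inl a) = Sum.inl (a, false) := by
        show Sum.inl (a, b a) = _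
        rw [hba]
      rw [e1] at h
      rcases κ' with a' | i' | ij' | i'
      · exact h
      · exact h
      · have h' : P.leaf q (pc ij') = a.1 ∨ P.cen q (pc ij') = a.1 := h
        rw [hb a ij' h'] at hba
        exact Bool.noConfusion hba
      · exact h
    · have e1 : EGB_lab (l := l) (w := w) P b c pc q (Sum.inl a) = Sum.inl (a, true) := by
        show Sum.inl (a, b a) = _
        rw [hba]
      rw [e1] at h
      rcases κ' with a' | i' | ij' | i' <;> exact h
  · rcases κ' with a' | i' | ij' | i'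
    · exact h
    · exact h
    · have h' : (i = ij'.1.1 ∧ c i ≠ (pc ij').1.1) ∨ (i = ij'.1.2 ∧ c i ≠ (pc ij').1.2) := h
      rcases h' with ⟨h3, h4⟩ | ⟨h3, h4⟩
      · exact h4 (by rw [h1, h3])
      · exact h4 (by rw [h2, h3])
    · exact h
  · rcases κ' with a' | i' | ij' | i'
    · exact h
    · exact h
    · have h' : q ≠ q := h
      exact h' rfl
    · exact h
  · rcases κ' with a' | i' | ij' | i' <;> exact h

theorem EGB_vr {M r K : ℕ} {E : Finset (Fin M × Fin M)} (P : Pcs M r K E) {l w : ℕ} (b : Tv P → Bool)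
    (c : Fin l → Fin r) (pc : Pr l → Pr r) (q : Fin K) (x : Fin K → Pr r → Bool)
    (hb : ∀ a : Tv P, b a = true → ∃ ij, P.leaf q (pc ij) = a.1 ∨ P.cen q (pc ij) = a.1)
    (hx : ∀ ij, x q (pc ij) = true) (κ κ' : Wk P l w) (q' : Fin K) (e' : Pr r)
    (h : wvr (EGB_lab P b c pc q κ) (EGB_lab P b c pc q κ') q' e') : x q' e' = true := by
  rcases κ with a | i | ij | i
  · rcases hba : b a with _ | _
    · have e1 : EGB_lab (l := l) (w := w) P b c pc q (Sum.inl a) = Sum.inl (a, false) := by
        show Sum.inl (a, b a) = _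
        rw [hba]
      rw [e1] at h
      exact False.elim h
    · have e1 : EGB_lab (l := l) (w := w) P b c pc q (Sum.inl a) = Sum.inl (a, true) := by
        show Sum.inl (a, b a) = _
        rw [hba]
      rw [e1] at h
      rcases κ' with a' | i' | ij' | i'
      · rcases hba' : b a' with _ | _
        · have e2 : EGB_lab (l := l) (w := w) P b c pc q (Sum.inl a') = Sum.inl (a', false) := by
            show Sum.inl (a', b a') = _
            rw [hba']
          rw [e2] at h
          exact False.elim h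
        · have e2 : EGB_lab (l := l) (w := w) P b c pc q (Sum.inl a') = Sum.inl (a', true) := by
            show Sum.inl (a', b a') = _
            rw [hba']
          rw [e2] at h
          have h' : P.leaf q' e' = a.1 ∧ P.cen q' e' = a'.1 := h
          obtain ⟨f, hf⟩ := hb a hba
          obtain ⟨f', hf'⟩ := hb a' hba'
          have hq : q' = q := P.ind q q' e' ⟨pc f, by rw [h'.1]; exact hf⟩
            ⟨pc f', by rw [h'.2]; exact hf'⟩
          subst hq
          rcases hf with hf | hf
          · have he : pc f = e' := P.inj q' (by rw [hf, h'.1])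
            rw [← he]
            exact hx f
          · exact absurd (by rw [hf, h'.1]) (P.dis q' e' (pc f))
      · exact False.elim h
      · exact False.elim h
      · exact False.elim h
  · exact False.elim h
  · exact False.elim h
  · exact False.elim h

theorem EGB : EGB_stmt := by
  classical
  intro M r K l w E P x q R hR hx
  set c : Fin l ↪o Fin r := R.orderEmbOfFin hR with hc
  have hcR : ∀ i, c i ∈ R := fun i => R.orderEmbOfFin_mem hR i
  let pc : Pr l → Pr r := fun ij => ⟨(c ij.1.1, c ij.1.2), c.strictMono ij.2⟩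
  let b : Tv P → Bool := fun a => decide (∃ ij, P.leaf q (pc ij) = a.1 ∨ P.cen q (pc ij) = a.1)
  have hb1 : ∀ (a : Tv P) (ij : Pr l), (P.leaf q (pc ij) = a.1 ∨ P.cen q (pc ij) = a.1) → b a = true :=
    fun a ij h => decide_eq_true ⟨ij, h⟩
  have hb2 : ∀ a : Tv P, b a = true → ∃ ij, P.leaf q (pc ij) = a.1 ∨ P.cen q (pc ij) = a.1 :=
    fun a h => of_decide_eq_true h
  have hxp : ∀ ij, x q (pc ij) = true := fun ij => hx _ (hcR _) _ (hcR _) _
  have hcls := fun κ : Wk P l w => EGB_cls P b c pc q κ
  have hinj : Function.Injective (EGB_lab (l := l) (w := w) P b c pc q) :=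
    Function.LeftInverse.injective hcls
  have : Fintype (Wk P l w) := Fintype.ofFinite _
  refine ⟨Finset.univ.map ⟨_, hinj⟩, ?_, ?_⟩
  · rw [Finset.card_map, Finset.card_univ, Nat.card_eq_fintype_card]
  · intro α hα β hβ hne
    obtain ⟨κ, -, rfl⟩ := Finset.mem_map.mp hα
    obtain ⟨κ', -, rfl⟩ := Finset.mem_map.mp hβ
    refine ⟨?_, ?_, ?_, ?_, ?_⟩
    · intro h
      have h' : wcls (EGB_lab P b c pc q κ) = wcls (EGB_lab P b c pc q κ') := h
      rw [hcls, hcls] at h'
      exact hne (by rw [h'])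
    · exact EGB_ncf P b c pc q hb1 (fun _ => rfl) (fun _ => rfl) κ κ'
    · exact EGB_ncf P b c pc q hb1 (fun _ => rfl) (fun _ => rfl) κ' κ
    · exact fun q' e h => EGB_vr P b c pc q x hb2 hxp κ κ' q' e h
    · exact fun q' e h => EGB_vr P b c pc q x hb2 hxp κ' κ q' e h

end Pool.Agent.LN
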