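import Pool.Agent.helper69.LN.Spec

/-!
# Row ln:GB: from a clique of `x` to a clique of the gadget graph
-/

set_option autoImplicit false

namespace Pool.Agent.LN

open Finset Pool.Agent.helper38.Neg Pool.Agent.helper55.NT

/-- the chosen label of a class -/
def GB_lab {M r : ℕ} (cen : Pr r → Fin M) {l w : ℕ} (b : Pr r → Bool) (c : Fin l → Fin r)
    (pc : Pr l → Pr r) : Kl cen l w → Vt cen l w
  | Sum.inl q => Sum.inl q
  | Sum.inr (Sum.inl e) => Sum.inr (Sum.inl (e, b e))
  | Sum.inr (Sum.inr (Sum.inl i)) => Sum.inr (Sum.inr (Sum.inl (i, c i)))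
  | Sum.inr (Sum.inr (Sum.inr (Sum.inl ij))) => Sum.inr (Sum.inr (Sum.inr (Sum.inl (ij, pc ij))))
  | Sum.inr (Sum.inr (Sum.inr (Sum.inr i))) => Sum.inr (Sum.inr (Sum.inr (Sum.inr i)))

theorem GB_cls {M r : ℕ} (cen : Pr r → Fin M) {l w : ℕ} (b : Pr r → Bool) (c : Fin l → Fin r)
    (pc : Pr l → Pr r) (κ : Kl cen l w) : cls (GB_lab cen b c pc κ) = κ := by
  rcases κ with q | e | i | ij | i <;> rfl

theorem GB_ncf {M r : ℕ} (cen : Pr r → Fin M) {l w : ℕ} (b : Pr r → Bool) (c : Fin l → Fin r)
    (pc : Pr l → Pr r) (hb : ∀ ij, b (pc ij) = true) (h1 : ∀ ij, (pc ij).1.1 = c ij.1.1)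
    (h2 : ∀ ij, (pc ij).1.2 = c ij.1.2) (κ κ' : Kl cen l w) :
    ¬ cf (GB_lab cen b c pc κ) (GB_lab cen b c pc κ') := by
  intro h
  rcases κ with q | e | i | ij | i
  · rcases κ' with q' | e' | i' | ij' | i' <;> exact h
  · rcases hbe : b e with _ | _
    · have e1 : GB_lab (l := l) (w := w) cen b c pc (Sum.inr (Sum.inl e)) =
          Sum.inr (Sum.inl (e, false)) := by
        show Sum.inr (Sum.inl (e, b e)) = _
        rw [hbe]
      rw [e1] at h
      rcases κ' with q' | e' | i' | ij' | i'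
      · exact h
      · exact h
      · exact h
      · have h' : e = pc ij' := h
        rw [h', hb] at hbe
        exact Bool.noConfusion hbe
      · exact h
    · have e1 : GB_lab (l := l) (w := w) cen b c pc (Sum.inr (Sum.inl e)) =
          Sum.inr (Sum.inl (e, true)) := by
        show Sum.inr (Sum.inl (e, b e)) = _
        rw [hbe]
      rw [e1] at h
      rcases κ' with q' | e' | i' | ij' | i' <;> exact h
  · rcases κ' with q' | e' | i' | ij' | i'
    · exact h
    · exact h
    · exact h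
    · have h' : (i = ij'.1.1 ∧ c i ≠ (pc ij').1.1) ∨ (i = ij'.1.2 ∧ c i ≠ (pc ij').1.2) := h
      rcases h' with ⟨h3, h4⟩ | ⟨h3, h4⟩
      · exact h4 (by rw [h1, h3])
      · exact h4 (by rw [h2, h3])
    · exact h
  · rcases κ' with q' | e' | i' | ij' | i' <;> exact h
  · rcases κ' with q' | e' | i' | ij' | i' <;> exact h

theorem GB_vr {M r : ℕ} (cen : Pr r → Fin M) {l w : ℕ} (b : Pr r → Bool) (c : Fin l → Fin r)
    (pc : Pr l → Pr r) (x : Pr r → Bool) (hb : ∀ e, b e = true → x e = true)
    (κ κ' : Kl cen l w) (e' : Pr r)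
    (h : vr (GB_lab cen b c pc κ) (GB_lab cen b c pc κ') e') : x e' = true := by
  rcases κ with q | e | i | ij | i
  · exact False.elim h
  · rcases hbe : b e with _ | _
    · have e1 : GB_lab (l := l) (w := w) cen b c pc (Sum.inr (Sum.inl e)) =
          Sum.inr (Sum.inl (e, false)) := by
        show Sum.inr (Sum.inl (e, b e)) = _
        rw [hbe]
      rw [e1] at h
      exact False.elim h
    · have e1 : GB_lab (l := l) (w := w) cen b c pc (Sum.inr (Sum.inl e)) =
          Sum.inr (Sum.inl (e, true)) := by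
        show Sum.inr (Sum.inl (e, b e)) = _
        rw [hbe]
      rw [e1] at h
      rcases κ' with q' | e'' | i' | ij' | i'
      · have h' : e = e' ∧ cen e = q'.1 := h
        rw [← h'.1]
        exact hb e hbe
      · exact False.elim h
      · exact False.elim h
      · exact False.elim h
      · exact False.elim h
  · exact False.elim h
  · exact False.elim h
  · exact False.elim h

theorem GB : GB_stmt := by
  classical
  intro M r l w cen x R hR hx
  set c : Fin l ↪o Fin r := R.orderEmbOfFin hR with hc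
  have hcR : ∀ i, c i ∈ R := fun i => R.orderEmbOfFin_mem hR i
  let pc : Pr l → Pr r := fun ij => ⟨(c ij.1.1, c ij.1.2), c.strictMono ij.2⟩
  let b : Pr r → Bool := fun e => decide (∃ ij, pc ij = e)
  have hb1 : ∀ ij, b (pc ij) = true := fun ij => decide_eq_true ⟨ij, rfl⟩
  have hb2 : ∀ e, b e = true → x e = true := by
    intro e he
    obtain ⟨ij, rfl⟩ := of_decide_eq_true he
    exact hx _ (hcR _) _ (hcR _) _
  have hcls := fun κ : Kl cen l w => GB_cls cen b c pc κ
  have hinj : Function.Injective (GB_lab (l := l) (w := w) cen b c pc) :=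
    Function.LeftInverse.injective hcls
  have : Fintype (Kl cen l w) := Fintype.ofFinite _
  refine ⟨Finset.univ.map ⟨_, hinj⟩, ?_, ?_⟩
  · rw [Finset.card_map, Finset.card_univ, Nat.card_eq_fintype_card]
  · intro α hα β hβ hne
    obtain ⟨κ, -, rfl⟩ := Finset.mem_map.mp hα
    obtain ⟨κ', -, rfl⟩ := Finset.mem_map.mp hβ
    refine ⟨?_, ?_, ?_, ?_, ?_⟩
    · intro h
      have h' : cls (GB_lab cen b c pc κ) = cls (GB_lab cen b c pc κ') := h
      rw [hcls, hcls] at h'
      exact hne (by rw [h'])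
    · exact GB_ncf cen b c pc hb1 (fun _ => rfl) (fun _ => rfl) κ κ'
    · exact GB_ncf cen b c pc hb1 (fun _ => rfl) (fun _ => rfl) κ' κ
    · exact fun e h => GB_vr cen b c pc x hb2 κ κ' e h
    · exact fun e h => GB_vr cen b c pc x hb2 κ' κ e h

end Pool.Agent.LN
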